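import Pool.Agent.Helper90.SCH.Tower

/-!
MP_08b069_al: the lattice of Schunck classes of finite soluble groups is not atomic. The interval
below the class of groups with a Sylow tower is determined completely: it is an infinite
descending chain together with the trivial class.
-/

set_option autoImplicit false

namespace Pool.Agent.Results.MP_08b069_al.SylowTowerChain

/-- A class of groups is a Schunck class of finite soluble groups. -/
structure SchunckClass (X : (G : Type) → [Group G] → Prop) : Prop where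
  soluble : ∀ (G : Type) [Group G], X G → Finite G ∧ Group.IsSolvable G
  iso : ∀ (G H : Type) [Group G] [Group H], Nonempty (G ≃* H) → X G → X H
  quotient : ∀ (G : Type) [Group G] (N : Subgroup G) [N.Normal], X G → X (G ⧸ N)
  primitive : ∀ (G : Type) [Group G] [Finite G], Group.IsSolvable G →
    (∀ (N : Subgroup G) [N.Normal],
      (∃ M : Subgroup (G ⧸ N), IsCoatom M ∧ M.normalCore = ⊥) → X (G ⧸ N)) → X G

/-- `E` is an `X`-projector of `G`. -/
def Projector (X : (G : Type) → [Group G] → Prop) {G : Type} [Group G] (E : Subgroup G) : Prop :=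
  ∀ (N : Subgroup G) [N.Normal], X ↥(E.map (QuotientGroup.mk' N)) ∧
    ∀ K : Subgroup (G ⧸ N), E.map (QuotientGroup.mk' N) ≤ K → X ↥K →
      K = E.map (QuotientGroup.mk' N)

/-- `X ≪ Y`: in every finite soluble group some `X`-projector is contained in some
`Y`-projector. -/
def StrongLe (X Y : (G : Type) → [Group G] → Prop) : Prop :=
  ∀ (G : Type) [Group G] [Finite G], Group.IsSolvable G →
    ∃ E F : Subgroup G, Projector X E ∧ Projector Y F ∧ E ≤ F

/-- `G` is a finite soluble group with a Sylow tower of the type of the decreasing primes (for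
every `n` the elements of `G` of order divisible only by primes `≥ n` form a normal Hall subgroup),
and every prime divisor of `|G|` is at least `m`. -/
def Tower (m : ℕ) (G : Type) [Group G] : Prop :=
  (Finite G ∧ Group.IsSolvable G ∧ ∀ n : ℕ, ∃ H : Subgroup G, H.Normal ∧
    (∀ p : ℕ, p.Prime → p ∣ Nat.card H → n ≤ p) ∧ (∀ p : ℕ, p.Prime → p ∣ H.index → p < n)) ∧
  ∀ p : ℕ, p.Prime → p ∣ Nat.card G → m ≤ p

open Pool.Agent.Helper33.Schunck Pool.Agent.Helper90.SCH

private lemma toS {X : (G : Type) → [Group G] → Prop} (h : SchunckClass X) : IsSchunck X :=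
  ⟨h.soluble, h.iso, h.quotient, h.primitive⟩

private lemma ofS {X : (G : Type) → [Group G] → Prop} (h : IsSchunck X) : SchunckClass X :=
  ⟨h.fs, h.iso, h.quot, h.prim⟩

private lemma tower_iff (m : ℕ) (G : Type) [Group G] : Tg m G ↔ Tower m G := by
  constructor
  · rintro ⟨⟨h1, h2, h3⟩, h4⟩
    exact ⟨⟨h1, h2, fun n => (h3 n).imp fun H hH => ⟨hH.normal, hH.big, hH.small⟩⟩, h4⟩
  · rintro ⟨⟨h1, h2, h3⟩, h4⟩
    exact ⟨⟨h1, h2, fun n => (h3 n).imp fun H hH => ⟨hH.1, hH.2.1, hH.2.2⟩⟩, h4⟩

/-- (1) Every `Tower m` is a Schunck class, and for primes `q, m` one has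
`Tower m ≪ Tower q` iff `q ≤ m`.
(2) A Schunck class `X` satisfies `X ≪ Tower 2` (the class of all groups with a Sylow tower) iff
`X` is trivial or `X = Tower q` for a prime `q`.
(3) So no atom of the lattice lies below `Tower 2`: for every nontrivial Schunck class
`A ≪ Tower 2` there is a nontrivial Schunck class `B ≪ A` different from `A`. -/
theorem result :
    (∀ m : ℕ, SchunckClass (Tower m)) ∧
    (∀ q m : ℕ, q.Prime → m.Prime → (StrongLe (Tower m) (Tower q) ↔ q ≤ m)) ∧
    (∀ X : (G : Type) → [Group G] → Prop, SchunckClass X →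
      (StrongLe X (Tower 2) ↔
        (∀ (G : Type) [Group G], X G → Subsingleton G) ∨
        ∃ q : ℕ, q.Prime ∧ ∀ (G : Type) [Group G], X G ↔ Tower q G)) ∧
    (∀ A : (G : Type) → [Group G] → Prop, SchunckClass A →
      (∃ (G : Type) (_ : Group G), A G ∧ Nontrivial G) → StrongLe A (Tower 2) →
      ∃ B : (G : Type) → [Group G] → Prop, SchunckClass B ∧
        (∃ (G : Type) (_ : Group G), B G ∧ Nontrivial G) ∧ StrongLe B A ∧
        ∃ (G : Type) (_ : Group G), A G ∧ ¬ B G) := by
  have hS : ∀ m : ℕ, SchunckClass (Tower m) := by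
    intro m
    have h := isSchunck_Tg m
    refine ⟨fun G _ hG => h.fs G ((tower_iff m G).2 hG),
      fun G H _ _ e hG => (tower_iff m H).1 (h.iso G H e ((tower_iff m G).2 hG)),
      fun G _ N _ hG => (tower_iff m _).1 (h.quot G N ((tower_iff m G).2 hG)),
      fun G _ _ hs hp => (tower_iff m G).1 (h.prim G hs fun N _ hN => (tower_iff m _).2 (hp N hN))⟩
  have hLe : ∀ q m : ℕ, q ≤ m → StrongLe (Tower m) (Tower q) := fun q m h =>
    Le.congr (fun G _ => tower_iff m G) (fun G _ => tower_iff q G) (le_Tg h)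
  have hz : ∀ (p m : ℕ), p.Prime → (Tower m (Multiplicative (ZMod p)) ↔ m ≤ p) := fun p m hp => by
    rw [← tower_iff]; exact Tg_zmod hp
  have hnt : ∀ q : ℕ, q.Prime →
      ∃ (G : Type) (_ : Group G), Tower q G ∧ Nontrivial G := fun q hq => by
    have : Fact q.Prime := ⟨hq⟩
    exact ⟨Multiplicative (ZMod q), inferInstance, (hz q q hq).2 le_rfl, inferInstance⟩
  have hcls : ∀ A : (G : Type) → [Group G] → Prop, SchunckClass A →
      (∃ (G : Type) (_ : Group G), A G ∧ Nontrivial G) → StrongLe A (Tower 2) →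
      ∃ q : ℕ, q.Prime ∧ ∀ (G : Type) [Group G], A G ↔ Tower q G := by
    intro A hA hne hle
    have hle' : Le A T := Le.congr (fun G _ => Iff.rfl)
      (fun G _ => (tower_iff 2 G).symm.trans Tg_two) hle
    obtain ⟨q, hq, h⟩ := classify (toS hA) hne hle'
    exact ⟨q, hq, fun G _ => (h G).trans (tower_iff q G)⟩
  refine ⟨hS, ?_, ?_, ?_⟩
  · intro q m hq hm
    refine ⟨fun h => ?_, hLe q m⟩
    have h1 : Tower q (Multiplicative (ZMod m)) :=
      sub_of_le (toS (hS m)) (toS (hS q)) h ((hz m m hm).2 le_rfl)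
    exact (hz m q hm).1 h1
  · intro X hX
    constructor
    · intro h
      by_cases hne : ∃ (G : Type) (_ : Group G), X G ∧ Nontrivial G
      · exact Or.inr (hcls X hX hne h)
      · left
        intro G _ hG
        by_contra hns
        exact hne ⟨G, _, hG, not_subsingleton_iff_nontrivial.1 hns⟩
    · rintro (h | ⟨q, hq, h⟩)
      · exact le_of_trivial (toS hX) (toS (hS 2)) h
      · exact Le.congr (fun G _ => (h G).symm) (fun G _ => Iff.rfl) (hLe 2 q hq.two_le)
  · intro A hA hne hle
    obtain ⟨q, hq, h⟩ := hcls A hA hne hle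
    obtain ⟨m, hqm, hm⟩ := Nat.exists_infinite_primes (q + 1)
    refine ⟨Tower m, hS m, hnt m hm,
      Le.congr (fun G _ => Iff.rfl) (fun G _ => (h G).symm) (hLe q m (by omega)),
      Multiplicative (ZMod q), inferInstance, (h _).2 ((hz q q hq).2 le_rfl), ?_⟩
    intro h1
    have := (hz q m hq).1 h1
    omega

end Pool.Agent.Results.MP_08b069_al.SylowTowerChain
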